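import Pool.Agent.Helper25.WH.Defs
import Pool.Agent.Helper62.M4.M4D
import Pool.Agent.Helper25.WL.TN

/-!
# W++, H2: the fourth moment of one factor

Short factors (`(2^e)^2 ≤ r T`): the mean value theorem for the square of `KF`. Long factors are smooth: `m4D`.
-/

set_option autoImplicit false

namespace Pool.Agent.Helper62.WH

open ArithmeticFunction Finset
open Pool.Helper5.WB
open Pool.Agent.Helper25.HM (nt cv)
open Pool.Agent.Helper25.WL (PR PR_mul cv_leB T1L)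
open Pool.Agent.Helper25.WH

private lemma nt_cpowH {n : ℕ} (hn : 1 ≤ n) (t : ℝ) : (n : ℂ) ^ (Complex.I * t) = nt n t := by
  have hn0 : (0 : ℝ) < n := by exact_mod_cast hn
  have hn1 : (n : ℂ) ≠ 0 := by exact_mod_cast hn0.ne'
  unfold nt
  rw [Complex.cpow_def_of_ne_zero hn1]
  congr 1
  have : Complex.log (n : ℂ) = ((Real.log n : ℝ) : ℂ) := by
    rw [Complex.ofReal_log hn0.le]
    simp
  rw [this]
  push_cast
  ring

private lemma KF_eqH (z e q : ℕ) {r : ℕ} (χ : DirichletCharacter ℂ r) (t : ℝ) :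
    KF true z e q χ t = ∑ n ∈ Icc 1 ⌊2 * (2 : ℝ) ^ e⌋₊, (psi (n / (2 : ℝ) ^ e) : ℂ) * (if Nat.Coprime n q then 1 else 0) *
      χ (n : ZMod r) * (n : ℂ) ^ (Complex.I * t) := by
  have h1 : ⌊2 * (2 : ℝ) ^ e⌋₊ = 2 ^ (e + 1) := by
    have : 2 * (2 : ℝ) ^ e = ((2 ^ (e + 1) : ℕ) : ℝ) := by
      push_cast
      ring
    rw [this, Nat.floor_natCast]
  rw [h1]
  unfold KF PR
  refine sum_congr rfl fun n hn => ?_
  rw [mem_Icc] at hn
  rw [nt_cpowH hn.1]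
  have hn0 : n ≠ 0 := by omega
  unfold fc
  by_cases hc : Nat.Coprime n q
  · rw [if_pos ⟨hn0, hc⟩, if_pos hc]
    simp only [if_true]
    ring
  · rw [if_neg (fun h => hc h.2), if_neg hc]
    ring

/-- short factors -/
lemma shortF {ε : ℝ} (hε : 0 < ε) : ∃ C : ℝ, 0 < C ∧ ∀ (r : ℕ) [NeZero r] (b : Bool) (T z q e : ℕ) (M : ℝ),
    1 ≤ T → 1 ≤ M → (2 : ℝ) ^ e ≤ M ^ 2 → ((2 : ℝ) ^ e) ^ 2 ≤ r * T →
    ∀ s : DirichletCharacter ℂ r × ℤ → ℝ, (∀ p, (p.2 : ℝ) ≤ s p ∧ s p ≤ p.2 + 1) →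
      ∑ p ∈ (univ : Finset (DirichletCharacter ℂ r)) ×ˢ Icc (-(T : ℤ)) T, ‖KF b z e q p.1 (s p)‖ ^ 4 ≤
        C * M ^ ε * ((r : ℝ) * T * ((2 : ℝ) ^ e) ^ 2) := by
  obtain ⟨C2, hC2, hd⟩ := Pool.Agent.Helper62.M4.divs (e := ε / 8) (D := 4) (by positivity) (by norm_num)
  obtain ⟨C3, hC3, hl⟩ := Pool.Agent.Helper62.M4.logs (e := ε / 8) (D := 4) (by positivity) (by norm_num)
  refine ⟨400 * C3 ^ 3 * C2 ^ 2 * 20, by positivity, fun r _ b T z q e M hT hM heM heT s hs => ?_⟩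
  obtain ⟨L, hL⟩ : ∃ L : ℝ, L = (2 : ℝ) ^ e := ⟨_, rfl⟩
  rw [← hL] at heM heT ⊢
  have hM0 : 0 < M := by linarith
  have hL0 : 0 < L := by rw [hL]; positivity
  obtain ⟨A, hA⟩ : ∃ A : ℕ, A = 2 ^ (e + 1) := ⟨_, rfl⟩
  have hA1 : 1 ≤ A := by rw [hA]; exact Nat.one_le_two_pow
  have hAL : (A : ℝ) = 2 * L := by
    rw [hA, hL]
    push_cast
    ring
  have hAA : ((A * A : ℕ) : ℝ) = 4 * L ^ 2 := by
    push_cast
    rw [hAL]
    ring
  have hAM : ((A * A : ℕ) : ℝ) ≤ 4 * M ^ 6 := by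
    rw [hAA]
    have h1 : L ^ 2 ≤ (M ^ 2) ^ 2 := pow_le_pow_left₀ hL0.le heM 2
    have h2 : (M ^ 2) ^ 2 ≤ M ^ 6 := by
      rw [← pow_mul]
      exact pow_le_pow_right₀ hM (by norm_num)
    linarith
  obtain ⟨Y, hY⟩ : ∃ Y : ℝ, Y = M ^ (ε / 8) := ⟨_, rfl⟩
  have hY1 : 1 ≤ Y := by rw [hY]; exact Real.one_le_rpow hM (by positivity)
  have hY0 : 0 < Y := by linarith
  have hAA1 : 1 ≤ A * A := Nat.mul_pos hA1 hA1
  have hAA1' : (1 : ℝ) ≤ ((A * A : ℕ) : ℝ) := by exact_mod_cast hAA1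
  have hΛ : 1 + Real.log ((A * A : ℕ) : ℝ) ≤ C3 * Y := by
    rw [hY]
    exact hl M _ hM hAA1' hAM
  have hB : ∀ n ∈ Icc 1 (A * A), ‖cv A A (fc b z e q) (fc b z e q) n‖ ≤ C2 * Y := by
    intro n hn
    rw [mem_Icc] at hn
    have h1 := cv_leB (A := A) (B := A) (f := fc b z e q) (g := fc b z e q) zero_le_one zero_le_one
      (fun n _ => norm_fc b z e q n) (fun n _ => norm_fc b z e q n) n
    rw [one_mul, one_mul] at h1
    refine h1.trans ?_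
    rw [hY]
    apply hd M n hM (by omega)
    exact le_trans (by exact_mod_cast hn.2) hAM
  have hmain := T1L s hs T hT hAA1 (cv A A (fc b z e q) (fc b z e q)) hB hΛ
  have heq : ∀ p : DirichletCharacter ℂ r × ℤ, ‖KF b z e q p.1 (s p)‖ ^ 4 =
      ‖PR (A * A) (cv A A (fc b z e q) (fc b z e q)) p.1 (s p)‖ ^ 2 := by
    intro p
    rw [← PR_mul, norm_mul]
    unfold KF
    rw [hA]
    ring
  rw [sum_congr rfl fun p _ => heq p]
  refine hmain.trans ?_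
  rw [hAA]
  have hY5 : Y ^ 5 ≤ M ^ ε := by
    rw [hY, ← Real.rpow_natCast (M ^ (ε / 8)), ← Real.rpow_mul hM0.le]
    exact Real.rpow_le_rpow_of_exponent_le hM (by push_cast; linarith)
  have hrT0 : 0 ≤ (r : ℝ) * T := by positivity
  calc 400 * (C3 * Y) ^ 3 * ((C2 * Y) ^ 2 * ((r * T + 4 * L ^ 2) * (4 * L ^ 2)))
      = 400 * C3 ^ 3 * C2 ^ 2 * (Y ^ 5 * ((r * T + 4 * L ^ 2) * (4 * L ^ 2))) := by ring
    _ ≤ 400 * C3 ^ 3 * C2 ^ 2 * (M ^ ε * ((r * T + 4 * (r * T)) * (4 * L ^ 2))) := by gcongr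
    _ = _ := by ring

theorem m4f : M4F := by
  classical
  intro ε hε
  obtain ⟨C1, hC1, h4⟩ := Pool.Agent.Helper62.M4.m4D (ε / 6) (by positivity)
  obtain ⟨C2, hC2, h2⟩ := shortF hε
  refine ⟨C1 + C2, by positivity, fun q r _ _ hrq T z M f hT hM hTM hqM hfM hf s hs => ?_⟩
  obtain ⟨b, e⟩ := f
  simp only at hfM hf ⊢
  have hM0 : 0 < M := by linarith
  have hMε : 0 ≤ M ^ ε := by positivity
  have hR0 : 0 ≤ M ^ ε * ((r : ℝ) * T * ((2 : ℝ) ^ e) ^ 2) := by positivity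
  by_cases hc : ((2 : ℝ) ^ e) ^ 2 ≤ r * T
  · calc _ ≤ ∑ p ∈ (univ : Finset (DirichletCharacter ℂ r)) ×ˢ Icc (-(T : ℤ)) T, ‖KF b z e q p.1 (s p)‖ ^ 4 :=
          sum_le_sum_of_subset_of_nonneg (filter_subset _ _) fun _ _ _ => by positivity
      _ ≤ C2 * M ^ ε * ((r : ℝ) * T * ((2 : ℝ) ^ e) ^ 2) := h2 r b T z q e M hT hM hfM hc s hs
      _ ≤ _ := by nlinarith
  · have hb : b = true := by
      by_contra hb
      exact hc (hf (by simpa using hb))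
    subst hb
    obtain ⟨L, hL⟩ : ∃ L : ℝ, L = (2 : ℝ) ^ e := ⟨_, rfl⟩
    have hL1 : 1 ≤ L := by rw [hL]; exact one_le_pow₀ (by norm_num)
    have h5 := h4 q r hrq T L hT hL1 s hs
    have hX : ((q : ℝ) * T * L) ^ (ε / 6) ≤ M ^ ε := by
      have h6 : (q : ℝ) * T * L ≤ M ^ 6 := by
        have e1 : M ^ 6 = M ^ 2 * M ^ 2 * M ^ 2 := by ring
        rw [e1]
        have e2 : (0 : ℝ) ≤ T := Nat.cast_nonneg _
        have e3 : (0 : ℝ) ≤ L := by linarith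
        rw [hL] at e3 ⊢
        gcongr
      calc ((q : ℝ) * T * L) ^ (ε / 6) ≤ (M ^ 6) ^ (ε / 6) := Real.rpow_le_rpow (by positivity) h6 (by positivity)
        _ = M ^ ε := by
            rw [← Real.rpow_natCast M 6, ← Real.rpow_mul hM0.le]
            congr 1
            push_cast
            ring
    calc ∑ p ∈ ((univ : Finset (DirichletCharacter ℂ r)) ×ˢ Icc (-(T : ℤ)) T).filter
          (fun p => ¬ (p.1 = 1 ∧ |(p.2 : ℝ)| ≤ M ^ ε)), ‖KF true z e q p.1 (s p)‖ ^ 4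
        ≤ ∑ p ∈ ((univ : Finset (DirichletCharacter ℂ r)) ×ˢ Icc (-(T : ℤ)) T).filter
          (fun p => ¬ (p.1 = 1 ∧ |(p.2 : ℝ)| ≤ ((q : ℝ) * T * L) ^ (ε / 6))), ‖KF true z e q p.1 (s p)‖ ^ 4 := by
          apply sum_le_sum_of_subset_of_nonneg _ fun _ _ _ => by positivity
          intro p hp
          rw [mem_filter] at hp ⊢
          exact ⟨hp.1, fun h6 => hp.2 ⟨h6.1, h6.2.trans hX⟩⟩
      _ = ∑ p ∈ ((univ : Finset (DirichletCharacter ℂ r)) ×ˢ Icc (-(T : ℤ)) T).filter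
          (fun p => ¬ (p.1 = 1 ∧ |(p.2 : ℝ)| ≤ ((q : ℝ) * T * L) ^ (ε / 6))),
          ‖∑ n ∈ Icc 1 ⌊2 * L⌋₊, (psi (n / L) : ℂ) * (if Nat.Coprime n q then 1 else 0) * p.1 (n : ZMod r) *
          (n : ℂ) ^ (Complex.I * s p)‖ ^ 4 := by
          rw [hL]
          exact sum_congr rfl fun p _ => by rw [KF_eqH]
      _ ≤ C1 * ((q : ℝ) * T * L) ^ (ε / 6) * (r * T * L ^ 2) := by
          refine le_trans (le_of_eq ?_) h5
          exact sum_congr (by congr) fun _ _ => rfl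
      _ ≤ C1 * M ^ ε * (r * T * L ^ 2) := by gcongr
      _ ≤ _ := by
          rw [hL]
          nlinarith

end Pool.Agent.Helper62.WH
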